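import Pool.Agent.Lib.MP_174f4a_gt.CrowdedC

namespace Pool.Agent.Results.MP_174f4a_gt.CpCcNotFrechet

open Pool.Agent.Lib.MP_174f4a_gt

universe v

/-- There is a Tychonoff space `X` without isolated points such that both `C_p(X)` and `C_c(X)`
are s-groups and neither of them is Frechet-Urysohn. -/
theorem result : ∃ (X : Type) (_ : TopologicalSpace X),
    T35Space X ∧ (∀ x : X, ¬ IsOpen ({x} : Set X)) ∧
    (IsSGroup.{0, v} (Cp X) ∧ ¬ FrechetUrysohnSpace (Cp X)) ∧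
    (IsSGroup.{0, v} C(X, ℝ) ∧ ¬ FrechetUrysohnSpace C(X, ℝ)) :=
  ⟨XX, inferInstance, inferInstance, XX.not_isOpen_singleton,
    ⟨isSGroup_Cp.{0, v} ulamSpace_XX, not_frechetUrysohn_XX⟩,
    ⟨isSGroup_C_XX.{v}, not_frechetUrysohn_C_XX⟩⟩

end Pool.Agent.Results.MP_174f4a_gt.CpCcNotFrechet
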