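import Pool.Agent.Lib.MP_174f4a_gt.Lind

namespace Pool.Agent.Results.MP_174f4a_gt.LindelofCp

open Pool.Agent.Lib.MP_174f4a_gt

universe v

/-- There is a Lindelof subspace `S` of the Sorgenfrey line such that `C_p(S)` is an s-group but is
not Frechet-Urysohn. -/
theorem result : ∃ S : Set Sorgenfrey, LindelofSpace S ∧
    IsSGroup.{0, v} (Cp S) ∧ ¬ FrechetUrysohnSpace (Cp S) :=
  ⟨SS, inferInstance, isSGroup_Cp.{0, v} ulamSpace_SS, not_frechetUrysohn_SS⟩

end Pool.Agent.Results.MP_174f4a_gt.LindelofCp
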