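import Pool.Agent.Lib.MP_174f4a_gt.SC.KCB
import Pool.Agent.Lib.MP_174f4a_gt.SC.PCC
import Pool.Agent.Lib.MP_174f4a_gt.SC.PCP

namespace Pool.Agent.Results.MP_174f4a_gt.PolishSpaces

open Pool.Agent.Lib.MP_174f4a_gt Pool.Agent.Lib.MP_174f4a_gt.SC

universe u v

/-- For the space `X = ℕ → ℕ` of irrational numbers, `C_c(X)` is an s-group which is not
Frechet-Urysohn.  More generally, for every Polish space `X`: `C_c(X)` is an s-group, and it is
Frechet-Urysohn if and only if `X` is locally compact; `C_p(X)` is an s-group if and only if it is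
Frechet-Urysohn, if and only if `X` is countable. -/
theorem result :
    (IsSGroup.{0, v} C(ℕ → ℕ, ℝ) ∧ ¬ FrechetUrysohnSpace C(ℕ → ℕ, ℝ)) ∧
    ∀ (X : Type u) [TopologicalSpace X] [PolishSpace X],
      IsSGroup.{u, v} C(X, ℝ) ∧ (FrechetUrysohnSpace C(X, ℝ) ↔ LocallyCompactSpace X) ∧
      (IsSGroup.{u, u} (Cp X) ↔ Countable X) ∧ (FrechetUrysohnSpace (Cp X) ↔ Countable X) :=
  ⟨⟨specKCB.{0, v} (ℕ → ℕ) (compactlyCarried_of_polish (ℕ → ℕ)),
      fun h => not_locallyCompact_baire ((frechetUrysohn_iff_of_polish (ℕ → ℕ)).mp h)⟩,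
    fun X _ _ => ⟨specKCB.{u, v} X (compactlyCarried_of_polish X), frechetUrysohn_iff_of_polish X,
      cp_of_polish X⟩⟩

end Pool.Agent.Results.MP_174f4a_gt.PolishSpaces
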