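import Pool.Agent.Lib.MP_174f4a_gt.SC.KCA
import Pool.Agent.Lib.MP_174f4a_gt.SC.KCB
import Pool.Agent.Lib.MP_174f4a_gt.SC.CMA
import Pool.Agent.Lib.MP_174f4a_gt.SC.CMB
import Pool.Agent.Lib.MP_174f4a_gt.SC.POL

namespace Pool.Agent.Results.MP_174f4a_gt.SGroupCriterion

open Pool.Agent.Lib.MP_174f4a_gt Pool.Agent.Lib.MP_174f4a_gt.SC

universe u v

/-- A characterization of the spaces `X` for which `C_p(X)` (the first clause), respectively `C_c(X)` (the
second clause), is an s-group; and if `X` is Hausdorff and σ-compact, then `C_p(X)` is an s-group if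
and only if it is Frechet-Urysohn. -/
theorem result (X : Type u) [TopologicalSpace X] :
    ((IsSGroup.{u, u} (Cp X) ↔ FinitelyCarried X) ∧
      (FinitelyCarried X → IsSGroup.{u, v} (Cp X))) ∧
    ((IsSGroup.{u, u} C(X, ℝ) ↔ CompactlyCarried X) ∧
      (CompactlyCarried X → IsSGroup.{u, v} C(X, ℝ))) ∧
    (T2Space X → SigmaCompactSpace X →
      (IsSGroup.{u, u} (Cp X) ↔ FrechetUrysohnSpace (Cp X))) :=
  ⟨⟨⟨finitelyCarried_of_isSGroup, isSGroup_of_finitelyCarried.{u, u}⟩,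
      isSGroup_of_finitelyCarried.{u, v}⟩,
    ⟨⟨specKCA X, specKCB.{u, u} X⟩, specKCB.{u, v} X⟩,
    fun _ hX => specPOL specCMA specCMB X (Or.inl hX)⟩

end Pool.Agent.Results.MP_174f4a_gt.SGroupCriterion
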